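import Mathlib
import Pool.Agent.H77.GR.Stm

/-!
# Project GR, module SBR: the substitution of the pivot variable over a commutative ring
-/

set_option autoImplicit false

open MvPolynomial

namespace Pool.Agent.H57.GR

open Pool.Agent.H77.GR

theorem sg_C {R : Type} [CommRing R] (a : Fin 3 → R) (j : Fin 3) (u r : R) :
    sg a j u (C r) = C r := by
  unfold sg
  rw [aeval_C]
  rfl

theorem sg_X {R : Type} [CommRing R] (a : Fin 3 → R) (j : Fin 3) (u : R) (i : Fin 3) :
    sg a j u (X i) =
      if i = j then - (C u * ∑ t ∈ Finset.univ.erase j, C (a t) * X t) else X i := by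
  unfold sg
  rw [aeval_X]

theorem linR_split {R : Type} [CommRing R] (a : Fin 3 → R) (j : Fin 3) :
    linR a = C (a j) * X j + ∑ t ∈ Finset.univ.erase j, C (a t) * X t := by
  unfold linR
  exact (Finset.add_sum_erase Finset.univ (fun i => (C (a i) * X i : MvPolynomial (Fin 3) R)) (Finset.mem_univ j)).symm

theorem sbr : S_SBR := by
  intro R _ a j u hu
  have hC : (C u * C (a j) : MvPolynomial (Fin 3) R) = 1 := by
    rw [← C_mul, hu, C_1]
  have hlin : sg a j u (linR a) = 0 := by
    rw [linR_split a j, map_add, map_mul, sg_C, sg_X, if_pos rfl, map_sum]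
    have h1 : ∑ t ∈ Finset.univ.erase j, sg a j u (C (a t) * X t) =
        ∑ t ∈ Finset.univ.erase j, C (a t) * X t := by
      refine Finset.sum_congr rfl fun t ht => ?_
      rw [map_mul, sg_C, sg_X, if_neg (Finset.ne_of_mem_erase ht)]
    rw [h1]
    linear_combination (-(∑ t ∈ Finset.univ.erase j, C (a t) * X t)) * hC
  have hdvd : ∀ f, linR a ∣ f - sg a j u f := by
    intro f
    induction f using MvPolynomial.induction_on with
    | C r => rw [sg_C, sub_self]; exact dvd_zero _
    | add p q hp hq =>
      rw [map_add]
      have : p + q - (sg a j u p + sg a j u q) = (p - sg a j u p) + (q - sg a j u q) := by ring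
      rw [this]
      exact dvd_add hp hq
    | mul_X p i hp =>
      rw [map_mul]
      have h1 : linR a ∣ X i - sg a j u (X i) := by
        rw [sg_X]
        by_cases h : i = j
        · subst h
          rw [if_pos rfl]
          refine ⟨C u, ?_⟩
          rw [linR_split a i]
          linear_combination (-(X i : MvPolynomial (Fin 3) R)) * hC
        · rw [if_neg h, sub_self]
          exact dvd_zero _
      have : p * X i - sg a j u p * sg a j u (X i) =
          (p - sg a j u p) * X i + sg a j u p * (X i - sg a j u (X i)) := by ring
      rw [this]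
      exact dvd_add (hp.mul_right _) (h1.mul_left _)
  refine ⟨fun f => ⟨?_, ?_⟩, ?_, ?_⟩
  · rintro ⟨g, rfl⟩
    rw [map_mul, hlin, zero_mul]
  · intro h
    have := hdvd f
    rwa [h, sub_zero] at this
  · intro f m hf
    have h1 := hf.aeval (fun i => if i = j then
      - (C u * ∑ t ∈ Finset.univ.erase j, C (a t) * X t) else (X i : MvPolynomial (Fin 3) R))
      (n := 1) (by
        intro i
        by_cases h : i = j
        · simp only [h, if_true]
          refine IsHomogeneous.neg ?_
          have h2 : (∑ t ∈ Finset.univ.erase j, C (a t) * X t :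
              MvPolynomial (Fin 3) R).IsHomogeneous 1 := by
            refine IsHomogeneous.sum _ _ _ fun t _ => ?_
            simpa using (isHomogeneous_C (Fin 3) (a t)).mul (isHomogeneous_X R t)
          simpa using (isHomogeneous_C (Fin 3) u).mul h2
        · simp only [h, if_false]
          exact isHomogeneous_X R i)
    rw [one_mul] at h1
    exact h1
  · intro R' _ φ f
    induction f using MvPolynomial.induction_on with
    | C r => rw [sg_C, map_C, sg_C]
    | add p q hp hq => rw [map_add, map_add, hp, hq, map_add, map_add]
    | mul_X p i hp =>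
      rw [map_mul, map_mul, hp, map_mul, map_mul, map_X, sg_X, sg_X]
      congr 1
      by_cases h : i = j
      · rw [if_pos h, if_pos h, map_neg, map_mul, map_C, map_sum]
        congr 2
        refine Finset.sum_congr rfl fun t _ => ?_
        rw [map_mul, map_C, map_X]
      · rw [if_neg h, if_neg h, map_X]

end Pool.Agent.H57.GR
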